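import Pool.Agent.Q140.FRM.Frame

/-!
# Frames forcing prescribed normal directions on spanning disks

For all nonzero vectors `ξ₁, …, ξ_k` of `ℝ³` there is a frame such that every membrane spanned by it
has, for each `i`, a point with normal line parallel to `ξ_i`.

*Proof.*  After a linear change of coordinates the heights are `x + β y + γ z` with different
`β ≠ 0`.  The frame is the embedded curve `(cos 2t + ε p(t), sin 2t, ε cos t)`, a perturbed circle
traversed twice, where `p` is a smooth function with `p + γ cos t` divisible by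
`(sin 2t - β cos 2t) ^ 2`, for all the finitely many pairs `(β, γ)` (Chinese remainder theorem in the
ring of smooth periodic functions).  For small `ε` each height has exactly four critical points on
the frame, two maxima with the same value and two minima with the same value.  If a membrane had no
critical point of the height, the gradient would be a vector field without zeros on the disk; on the
boundary it turns by `-2π` with respect to the radial direction, but also by `-π` on each arc from a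
maximum to a minimum or from a minimum to a maximum, of which there are at least four: each covering
of the frame passes through all four points.
-/

set_option autoImplicit false

namespace Pool.Agent.Results.MP_873223_gt.NormalDirections

open scoped ContDiff InnerProductSpace

/-- Euclidean space `ℝ³`. -/
abbrev E3 : Type := EuclideanSpace ℝ (Fin 3)

/-- `l` is a frame: the image of a smooth immersion `h` of the circle `ℝ / 2πℤ` into `ℝ³`. -/
def IsFrame (l : Set E3) : Prop :=
  ∃ h : ℝ → E3, ContDiff ℝ ∞ h ∧ Function.Periodic h (2 * Real.pi) ∧ (∀ t, deriv h t ≠ 0) ∧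
    l = Set.range h

/-- The closed unit disk, as a subset of the complex plane. -/
def disk : Set ℂ := Metric.closedBall 0 1

/-- `H` is a membrane spanned by `l`: an immersion of class `C^∞` of the closed unit disk into `ℝ³`
that maps the unit circle onto `l`. -/
structure IsMembrane (l : Set E3) (H : ℂ → E3) : Prop where
  smooth : ContDiffOn ℝ ∞ H disk
  immersion : ∀ z ∈ disk, Function.Injective (fderivWithin ℝ H disk z)
  boundary : H '' Metric.sphere 0 1 = l

/-- The membrane `H` realizes `ξ` as a normal direction: at some point of the disk, the normal line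
(the orthogonal complement of the tangent plane) is the line spanned by `ξ`. -/
def Realizes (H : ℂ → E3) (ξ : E3) : Prop :=
  ∃ z ∈ disk, (LinearMap.range (fderivWithin ℝ H disk z).toLinearMap)ᗮ = Submodule.span ℝ {ξ}

theorem exists_vec {F : Set E3} (hF : F.Finite) : ∃ v : E3, ∀ x ∈ F, x ≠ 0 → ⟪x, v⟫_ℝ ≠ 0 := by
  have : Finite {x // x ∈ F ∧ x ≠ 0} := hF.subset (fun x hx => hx.1)
  obtain ⟨v, hv⟩ := Module.Dual.exists_forall_ne_zero_of_forall_exists
    (K := ℝ) (M := E3) (ι := {x // x ∈ F ∧ x ≠ 0})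
    (fun x => (innerSL ℝ x.1).toLinearMap) (fun x => ⟨x.1, by simpa using x.2.2⟩)
  exact ⟨v, fun x hx h0 => by simpa using hv ⟨x, hx, h0⟩⟩

theorem exists_orth (s : Finset E3) (hs : s.card ≤ 2) : ∃ c : E3, c ≠ 0 ∧ ∀ x ∈ s, ⟪c, x⟫_ℝ = 0 := by
  have h1 : (Submodule.span ℝ (s : Set E3))ᗮ ≠ ⊥ := by
    intro h
    rw [Submodule.orthogonal_eq_bot_iff] at h
    have h2 := finrank_span_finset_le_card (R := ℝ) s
    rw [Set.finrank, h, finrank_top, finrank_euclideanSpace_fin] at h2
    omega
  obtain ⟨c, hc, hc0⟩ := Submodule.exists_mem_ne_zero_of_ne_bot h1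
  refine ⟨c, hc0, fun x hx => ?_⟩
  rw [real_inner_comm]
  exact (Submodule.mem_orthogonal _ _).1 hc x (Submodule.subset_span hx)

theorem realizes_of {l : Set E3} {H : ℂ → E3} (hH : IsMembrane l H) {ξ : E3} (hξ : ξ ≠ 0)
    (h : ∃ z ∈ disk, ∀ x, ⟪ξ, fderivWithin ℝ H disk z x⟫_ℝ = 0) : Realizes H ξ := by
  obtain ⟨z, hz, hx⟩ := h
  refine ⟨z, hz, ?_⟩
  symm
  refine Submodule.eq_of_le_of_finrank_eq ?_ ?_
  · rw [Submodule.span_singleton_le_iff_mem, Submodule.mem_orthogonal]
    rintro _ ⟨x, rfl⟩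
    rw [real_inner_comm]
    exact hx x
  · rw [finrank_span_singleton hξ]
    have h1 := Submodule.finrank_add_finrank_orthogonal
      (LinearMap.range (fderivWithin ℝ H disk z).toLinearMap)
    rw [LinearMap.finrank_range_of_inj (hH.immersion z hz), Complex.finrank_real_complex,
      finrank_euclideanSpace_fin] at h1
    omega

/-- For all nonzero vectors `ξ₁, …, ξ_k` there is a frame `l`, even an embedded one, such that every
membrane spanned by `l` realizes each of `ξ₁, …, ξ_k` as a normal direction. -/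
theorem result (k : ℕ) (ξ : Fin k → E3) (hξ : ∀ i, ξ i ≠ 0) :
    ∃ l : Set E3, IsFrame l ∧ (∀ H : ℂ → E3, IsMembrane l H → ∀ i, Realizes H (ξ i)) ∧
      ∃ h : ℝ → E3, ContDiff ℝ ∞ h ∧ Function.Periodic h (2 * Real.pi) ∧ (∀ t, deriv h t ≠ 0) ∧
        Set.InjOn h (Set.Ico 0 (2 * Real.pi)) ∧ l = Set.range h := by
  classical
  have he0 : (EuclideanSpace.single 0 1 : E3) ≠ 0 := by
    intro h
    have := congrArg (fun x : E3 => x 0) h
    simp at this
  -- `u`
  obtain ⟨u, hu⟩ := exists_vec (F := insert (EuclideanSpace.single 0 1) (Set.range ξ))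
    ((Set.finite_range ξ).insert _)
  have hu0 : u ≠ 0 := by
    rintro rfl
    exact hu _ (Set.mem_insert _ _) he0 (by simp)
  have huξ : ∀ i, ⟪ξ i, u⟫_ℝ ≠ 0 := fun i =>
    hu _ (Set.mem_insert_of_mem _ ⟨i, rfl⟩) (hξ i)
  set ζ : Fin k → E3 := fun i => (⟪ξ i, u⟫_ℝ)⁻¹ • ξ i with hζ
  have hζu : ∀ i, ⟪ζ i, u⟫_ℝ = 1 := by
    intro i
    rw [hζ, real_inner_smul_left, inv_mul_cancel₀ (huξ i)]
  have hζ0 : ∀ i, ζ i ≠ 0 := by
    intro i h
    have := hζu i
    rw [h, inner_zero_left] at this
    exact zero_ne_one this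
  obtain ⟨a, ha0, ha⟩ := exists_orth {u} (by simp)
  -- `v`
  obtain ⟨v, hv⟩ := exists_vec (F := insert a (Set.range ζ ∪
    Set.range fun q : Fin k × Fin k => ζ q.1 - ζ q.2))
    (((Set.finite_range _).union (Set.finite_range _)).insert _)
  have hav : ⟪a, v⟫_ℝ ≠ 0 := hv _ (Set.mem_insert _ _) ha0
  have hζv : ∀ i, ⟪ζ i, v⟫_ℝ ≠ 0 := fun i =>
    hv _ (Set.mem_insert_of_mem _ (Or.inl ⟨i, rfl⟩)) (hζ0 i)
  have hζζ : ∀ i j, ζ i ≠ ζ j → ⟪ζ i, v⟫_ℝ ≠ ⟪ζ j, v⟫_ℝ := by
    intro i j hij h
    refine hv _ (Set.mem_insert_of_mem _ (Or.inr ⟨(i, j), rfl⟩)) (sub_ne_zero.2 hij) ?_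
    rw [inner_sub_left, h, sub_self]
  -- `w`
  obtain ⟨w, hw0, hw⟩ := exists_orth {u, v} (Finset.card_le_two)
  have hwu : ⟪w, u⟫_ℝ = 0 := hw u (by simp)
  have hwv : ⟪w, v⟫_ℝ = 0 := hw v (by simp)
  have hau : ⟪a, u⟫_ℝ = 0 := ha u (by simp)
  have hind : ∀ x y z : ℝ, x • u + y • v + z • w = 0 → x = 0 ∧ y = 0 ∧ z = 0 := by
    intro x y z h
    have h1 := congrArg (fun q : E3 => ⟪w, q⟫_ℝ) h
    simp only [inner_add_right, real_inner_smul_right, hwu, hwv, inner_zero_right] at h1
    have hz : z = 0 := by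
      have h2 : ⟪w, w⟫_ℝ ≠ 0 := inner_self_ne_zero.2 hw0
      have h3 : z * ⟪w, w⟫_ℝ = 0 := by linarith
      exact (mul_eq_zero.1 h3).resolve_right h2
    have h4 := congrArg (fun q : E3 => ⟪a, q⟫_ℝ) h
    simp only [inner_add_right, real_inner_smul_right, hau, hz, inner_zero_right] at h4
    have hy : y = 0 := by
      have h3 : y * ⟪a, v⟫_ℝ = 0 := by linarith
      exact (mul_eq_zero.1 h3).resolve_right hav
    refine ⟨?_, hy, hz⟩
    rw [hy, hz, zero_smul, zero_smul, add_zero, add_zero] at h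
    exact (smul_eq_zero.1 h).resolve_right hu0
  -- the curve
  obtain ⟨p, hp, e, he, hne, hS⟩ := Pool.Agent.Q140.FRM.exists_profile
    (Finset.univ.image fun i => (⟪ζ i, v⟫_ℝ, ⟪ζ i, w⟫_ℝ))
    (by
      intro x hx y hy hxy
      obtain ⟨i, -, rfl⟩ := Finset.mem_image.1 hx
      obtain ⟨j, -, rfl⟩ := Finset.mem_image.1 hy
      refine hζζ i j ?_
      intro h
      exact hxy (by rw [h]))
    (by
      intro x hx
      obtain ⟨i, -, rfl⟩ := Finset.mem_image.1 hx
      exact hζv i)
  have hfr := Pool.Agent.Q140.FRM.crv_smooth (u := u) (v := v) (w := w) (e := e) hp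
  have hpe := Pool.Agent.Q140.FRM.crv_periodic (u := u) (v := v) (w := w) (e := e) hp
  have hde := Pool.Agent.Q140.FRM.crv_ne hind hp he.ne'
  refine ⟨Set.range (Pool.Agent.Q140.FRM.crv p e u v w), ⟨_, hfr, hpe, hde, rfl⟩,
    fun H hH i => ?_, ⟨_, hfr, hpe, hde, ?_, rfl⟩⟩
  · refine realizes_of hH (hξ i) ?_
    obtain ⟨z, hz, hx⟩ := Pool.Agent.Q140.FRM.crv_critical hind hp he.ne' hne
      (hS _ (Finset.mem_image_of_mem _ (Finset.mem_univ i))) (innerSL ℝ (ζ i))
      (by simpa using hζu i) (by simp) (by simp) (H := H) (hH.smooth.of_le (by simp))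
      hH.immersion hH.boundary
    refine ⟨z, hz, fun x => ?_⟩
    have h1 := hx x
    rw [innerSL_apply_apply, hζ, real_inner_smul_left] at h1
    exact (mul_eq_zero.1 h1).resolve_left (inv_ne_zero (huξ i))
  · intro s hs t ht hst
    obtain ⟨n, hn⟩ := Pool.Agent.Q140.FRM.crv_inj hind hp he.ne' hne s t hst
    have hpi := Real.pi_pos
    have h1 : (n : ℝ) < 1 := by
      by_contra hcon; push Not at hcon; nlinarith [hs.2, ht.1]
    have h2 : (-1 : ℝ) < n := by
      by_contra hcon; push Not at hcon; nlinarith [hs.1, ht.2]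
    have h3 : n < 1 := by exact_mod_cast h1
    have h4 : -1 < n := by exact_mod_cast h2
    have h5 : n = 0 := by omega
    rw [hn, h5]; simp

end Pool.Agent.Results.MP_873223_gt.NormalDirections
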